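import Mathlib

/-!
# Ratios of binomial coefficients near the middle
-/

namespace Pool.Agent.MP_e77370_co

open Filter Topology Finset

lemma tendsto_ratio_zero (e : ℕ) :
    Tendsto (fun x : ℕ => ((2 * x).choose (x + e) : ℝ) / ((2 * x).choose x : ℝ)) atTop (𝓝 1) := by
  induction e with
  | zero =>
    refine tendsto_const_nhds.congr fun x => ?_
    have : ((2 * x).choose x : ℝ) ≠ 0 := by
      have := Nat.choose_pos (show x ≤ 2 * x by omega)
      positivity
    rw [add_zero, div_self this]
  | succ e ih =>
    have h1 : Tendsto (fun x : ℕ => ((x : ℝ) - e) / ((x : ℝ) + e + 1)) atTop (𝓝 1) := by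
      have h2 : Tendsto (fun x : ℕ => 1 - (2 * (e : ℝ) + 1) / ((x : ℝ) + e + 1)) atTop
          (𝓝 (1 - 0)) := by
        refine tendsto_const_nhds.sub (Tendsto.div_atTop tendsto_const_nhds ?_)
        refine tendsto_atTop_add_const_right _ _ (tendsto_atTop_add_const_right _ _ ?_)
        exact tendsto_natCast_atTop_atTop
      rw [sub_zero] at h2
      refine h2.congr fun x => ?_
      have : (x : ℝ) + e + 1 ≠ 0 := by positivity
      field_simp
      ring
    have h3 := ih.mul h1
    rw [one_mul] at h3
    refine h3.congr' ?_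
    filter_upwards [eventually_ge_atTop e] with x hx
    have h4 : ((2 * x).choose (x + e + 1) : ℝ) * ((x : ℝ) + e + 1) =
        ((2 * x).choose (x + e) : ℝ) * ((x : ℝ) - e) := by
      have := Nat.choose_succ_right_eq (2 * x) (x + e)
      have h5 : 2 * x - (x + e) = x - e := by omega
      rw [h5] at this
      have h6 := congrArg (Nat.cast : ℕ → ℝ) this
      push_cast [Nat.cast_sub hx] at h6
      linarith
    have h7 : (x : ℝ) + e + 1 ≠ 0 := by positivity
    rw [← add_assoc, div_mul_div_comm, ← h4]
    field_simp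

/-- `C(2x+c, x+e) / C(2x, x) → 2^c`. -/
lemma tendsto_ratio (c : ℕ) : ∀ e : ℕ,
    Tendsto (fun x : ℕ => ((2 * x + c).choose (x + e) : ℝ) / ((2 * x).choose x : ℝ)) atTop
      (𝓝 ((2 : ℝ) ^ c)) := by
  induction c with
  | zero =>
    intro e
    simpa using tendsto_ratio_zero e
  | succ c ih =>
    have key : ∀ e : ℕ, Tendsto (fun x : ℕ => ((2 * x + (c + 1)).choose (x + (e + 1)) : ℝ) /
        ((2 * x).choose x : ℝ)) atTop (𝓝 ((2 : ℝ) ^ (c + 1))) := by
      intro e
      have h := (ih e).add (ih (e + 1))
      have e1 : (2 : ℝ) ^ c + 2 ^ c = 2 ^ (c + 1) := by ring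
      rw [e1] at h
      refine h.congr fun x => ?_
      have e2 : (2 * x + (c + 1)).choose (x + (e + 1)) =
          (2 * x + c).choose (x + e) + (2 * x + c).choose (x + (e + 1)) := by
        rw [← add_assoc, ← add_assoc, Nat.choose_succ_succ']
      rw [e2]
      push_cast
      rw [add_div]
    intro e
    rcases e with _ | e
    · refine (key c).congr fun x => ?_
      congr 2
      rw [add_zero]
      apply Nat.choose_symm_of_eq_add
      ring
    · exact key e

/-- an upper bound for central binomial coefficients -/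
lemma central_sq (m : ℕ) : ((2 * m).choose m) ^ 2 * (2 * m + 1) ≤ 16 ^ m := by
  induction m with
  | zero => simp
  | succ m ih =>
    have h1 : (m + 1) * (2 * (m + 1)).choose (m + 1) = 2 * (2 * m + 1) * (2 * m).choose m :=
      Nat.succ_mul_centralBinom_succ m
    have h2 : (m + 1) ^ 2 * (((2 * (m + 1)).choose (m + 1)) ^ 2 * (2 * (m + 1) + 1)) ≤
        (m + 1) ^ 2 * 16 ^ (m + 1) := by
      calc (m + 1) ^ 2 * (((2 * (m + 1)).choose (m + 1)) ^ 2 * (2 * (m + 1) + 1))
          = ((m + 1) * (2 * (m + 1)).choose (m + 1)) ^ 2 * (2 * m + 3) := by ring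
        _ = 4 * ((2 * m + 1) * (2 * m + 3)) * (((2 * m).choose m) ^ 2 * (2 * m + 1)) := by
            rw [h1]; ring
        _ ≤ 4 * (4 * (m + 1) ^ 2) * 16 ^ m := by
            apply Nat.mul_le_mul _ ih
            apply Nat.mul_le_mul_left
            nlinarith
        _ = (m + 1) ^ 2 * 16 ^ (m + 1) := by ring
    exact Nat.le_of_mul_le_mul_left h2 (by positivity)

/-- the number of large subsets of a `2m`-element set -/
lemma large_subsets (q m : ℕ) (hm : m = 32 * q ^ 2) (S : Finset ℕ) (hS : S.card = 2 * m) :
    3 * 4 ^ m ≤ 8 * (S.powerset.filter (fun A => m + q ≤ A.card)).card := by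
  classical
  set L := S.powerset.filter (fun A => m + q ≤ A.card) with hL
  set L' := S.powerset.filter (fun A => A.card + q ≤ m) with hL'
  set Mid := S.powerset.filter (fun A => m < A.card + q ∧ A.card < m + q) with hMid
  have h1 : L.card = L'.card := by
    apply Finset.card_bij (fun A _ => S \ A)
    · intro A hA
      simp only [hL, hL', Finset.mem_filter, Finset.mem_powerset] at hA ⊢
      refine ⟨Finset.sdiff_subset, ?_⟩
      have := Finset.card_sdiff_add_card_eq_card hA.1
      omega
    · intro A hA B hB hAB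
      simp only [hL, Finset.mem_filter, Finset.mem_powerset] at hA hB
      rw [← Finset.sdiff_sdiff_eq_self hA.1, hAB, Finset.sdiff_sdiff_eq_self hB.1]
    · intro B hB
      simp only [hL, hL', Finset.mem_filter, Finset.mem_powerset] at hB ⊢
      refine ⟨S \ B, ⟨Finset.sdiff_subset, ?_⟩, Finset.sdiff_sdiff_eq_self hB.1⟩
      have := Finset.card_sdiff_add_card_eq_card hB.1
      omega
  have h2 : 4 ^ m ≤ L.card + L'.card + Mid.card := by
    have e1 : S.powerset ⊆ L ∪ L' ∪ Mid := by
      intro A hA
      simp only [hL, hL', hMid, Finset.mem_union, Finset.mem_filter]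
      by_cases ha : m + q ≤ A.card
      · exact Or.inl (Or.inl ⟨hA, ha⟩)
      · by_cases hb : A.card + q ≤ m
        · exact Or.inl (Or.inr ⟨hA, hb⟩)
        · exact Or.inr ⟨hA, by omega, by omega⟩
    have e2 : S.powerset.card = 4 ^ m := by
      rw [Finset.card_powerset, hS, pow_mul]
      norm_num
    calc 4 ^ m = S.powerset.card := e2.symm
      _ ≤ (L ∪ L' ∪ Mid).card := Finset.card_le_card e1
      _ ≤ (L ∪ L').card + Mid.card := Finset.card_union_le _ _
      _ ≤ L.card + L'.card + Mid.card := by
          have := Finset.card_union_le L L'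
          omega
  have h3 : Mid.card ≤ 2 * q * (2 * m).choose m := by
    have e1 : Mid ⊆ (Finset.Ico (m + 1 - q) (m + q)).biUnion (fun i => S.powersetCard i) := by
      intro A hA
      simp only [hMid, Finset.mem_filter, Finset.mem_powerset] at hA
      simp only [Finset.mem_biUnion, Finset.mem_Ico, Finset.mem_powersetCard]
      exact ⟨A.card, ⟨by omega, by omega⟩, hA.1, rfl⟩
    calc Mid.card ≤ _ := Finset.card_le_card e1
      _ ≤ ∑ i ∈ Finset.Ico (m + 1 - q) (m + q), (S.powersetCard i).card :=
          Finset.card_biUnion_le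
      _ ≤ ∑ i ∈ Finset.Ico (m + 1 - q) (m + q), (2 * m).choose m := by
          apply Finset.sum_le_sum
          intro i _
          rw [Finset.card_powersetCard, hS]
          have := Nat.choose_le_middle i (2 * m)
          rwa [Nat.mul_div_cancel_left _ (by norm_num)] at this
      _ = (m + q - (m + 1 - q)) * (2 * m).choose m := by
          rw [Finset.sum_const, Nat.card_Ico, smul_eq_mul]
      _ ≤ 2 * q * (2 * m).choose m := by
          apply Nat.mul_le_mul_right
          omega
  have h4 : 8 * q * (2 * m).choose m ≤ 4 ^ m := by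
    rw [← Nat.pow_le_pow_iff_left (n := 2) (by norm_num)]
    calc (8 * q * (2 * m).choose m) ^ 2 = ((2 * m).choose m) ^ 2 * (64 * q ^ 2) := by ring
      _ ≤ ((2 * m).choose m) ^ 2 * (2 * m + 1) := by
          apply Nat.mul_le_mul_left
          omega
      _ ≤ 16 ^ m := central_sq m
      _ = (4 ^ m) ^ 2 := by rw [← pow_mul, mul_comm, pow_mul]; norm_num
  nlinarith

end Pool.Agent.MP_e77370_co
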